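import Mathlib
import Pool.Agent.Helper47.P.Defs

/-!
# Theorem M+: the forms on the slices
-/

set_option autoImplicit false

namespace Pool.Agent.Helper24.P

open MvPolynomial Pool.Agent.Helper47.M Pool.Agent.Helper47.P

variable {k l : ℕ} {n N : Fin k → ℕ} {d : Fin l → Fin k → ℕ}

/-- The kept homogeneous coordinates. -/
def ih (g : Sl n N) (r : Fin k) : Fin (n r + 1) → Fin (N r + 1) :=
  Fin.cons 0 fun b => (g r b).succ

theorem ih_zero (g : Sl n N) (r : Fin k) : ih g r 0 = 0 := by
  rw [ih, Fin.cons_zero]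

theorem ih_succ (g : Sl n N) (r : Fin k) (b : Fin (n r)) : ih g r b.succ = (g r b).succ := by
  rw [ih, Fin.cons_succ]

theorem ih_inj (g : Sl n N) (r : Fin k) : Function.Injective (ih g r) := by
  intro j j'
  refine Fin.cases ?_ (fun b => ?_) j
  · refine Fin.cases ?_ (fun b' => ?_) j'
    · intro _
      rfl
    · intro h
      rw [ih_zero, ih_succ] at h
      exact absurd h.symm (Fin.succ_ne_zero _)
  · refine Fin.cases ?_ (fun b' => ?_) j'
    · intro h
      rw [ih_zero, ih_succ] at h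
      exact absurd h (Fin.succ_ne_zero _)
    · intro h
      rw [ih_succ, ih_succ] at h
      rw [(g r).injective (Fin.succ_injective _ h)]

section ring

variable {S S' : Type*} [CommRing S] [CommRing S']

/-- Multilinearity. -/
theorem tv_lin {e : Fin k → ℕ} (a : Tn N e → S) (M : ∀ r, Fin (n r + 1) → Fin (N r + 1) → S)
    (Y : ∀ r, Fin (e r) → Fin (n r + 1) → S) :
    tv a (fun r t i => ∑ j, Y r t j * M r j i) =
      tv (fun m' : Tn n e => tv a fun r t => M r (m' r t)) Y := by
  classical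
  have h1 : ∀ (m : Tn N e) (r : Fin k), ∏ t, ∑ j, Y r t j * M r j (m r t) =
      ∑ p : Fin (e r) → Fin (n r + 1), ∏ t, (Y r t (p t) * M r (p t) (m r t)) := by
    intro m r
    rw [Finset.prod_univ_sum]
    simp
  have h2 : ∀ m : Tn N e, ∏ r, ∏ t, ∑ j, Y r t j * M r j (m r t) =
      ∑ m' : Tn n e, (∏ r, ∏ t, M r (m' r t) (m r t)) * ∏ r, ∏ t, Y r t (m' r t) := by
    intro m
    rw [Finset.prod_congr rfl fun r _ => h1 m r, Finset.prod_univ_sum]
    simp only [Fintype.piFinset_univ]
    refine Finset.sum_congr rfl fun m' _ => ?_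
    rw [← Finset.prod_mul_distrib]
    refine Finset.prod_congr rfl fun r _ => ?_
    rw [← Finset.prod_mul_distrib]
    refine Finset.prod_congr rfl fun t _ => ?_
    ring
  simp only [tv]
  rw [Finset.sum_congr rfl fun m _ => by rw [h2 m, Finset.mul_sum], Finset.sum_comm]
  refine Finset.sum_congr rfl fun m' _ => ?_
  rw [Finset.sum_mul]
  refine Finset.sum_congr rfl fun m _ => ?_
  ring

theorem fm_slc (g : Sl n N) (ξ : Q g → S) (c : Tx N d → S) (y : Pt n S) (i : Fin l) :
    Fm (slc g ξ c) y i = Fm c (emb g ξ y) i :=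
  (tv_lin (fun m => c ⟨i, m⟩) (Lg g ξ) fun r _ => y r).symm

theorem Lg_map (f : S →+* S') (g : Sl n N) (ξ : Q g → S) (r : Fin k) (j : Fin (n r + 1))
    (i : Fin (N r + 1)) : f (Lg g ξ r j i) = Lg g (fun q => f (ξ q)) r j i := by
  classical
  unfold Lg
  refine Fin.cases ?_ (fun b => ?_) j
  · rw [Fin.cons_zero, Fin.cons_zero]
    refine Fin.cases ?_ (fun a => ?_) i
    · rw [Fin.cons_zero, Fin.cons_zero, map_one]
    · rw [Fin.cons_succ, Fin.cons_succ]
      split_ifs
      · exact map_zero f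
      · rfl
  · rw [Fin.cons_succ, Fin.cons_succ]
    by_cases h : i = (g r b).succ
    · subst h
      rw [Pi.single_eq_same, Pi.single_eq_same, map_one]
    · rw [Pi.single_eq_of_ne h, Pi.single_eq_of_ne h, map_zero]

theorem slc_map (f : S →+* S') (g : Sl n N) (ξ : Q g → S) (c : Tx N d → S) (e : Tx n d) :
    f (slc g ξ c e) = slc g (fun q => f (ξ q)) (fun e => f (c e)) e := by
  unfold slc tv
  simp only [map_sum, map_mul, map_prod, Lg_map]

theorem Lg_zero (g : Sl n N) (ξ : Q g → S) (r : Fin k) (j : Fin (n r + 1)) :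
    Lg g ξ r j 0 = if j = 0 then 1 else 0 := by
  classical
  unfold Lg
  refine Fin.cases ?_ (fun b => ?_) j
  · rw [Fin.cons_zero, Fin.cons_zero, if_pos rfl]
  · rw [Fin.cons_succ, if_neg (Fin.succ_ne_zero b), Pi.single_eq_of_ne (Fin.succ_ne_zero _).symm]

theorem Lg_free (g : Sl n N) (ξ : Q g → S) (r : Fin k) (j : Fin (n r + 1)) (b : Fin (n r)) :
    Lg g ξ r j (g r b).succ = if j = b.succ then 1 else 0 := by
  classical
  unfold Lg
  refine Fin.cases ?_ (fun b' => ?_) j
  · rw [Fin.cons_zero, Fin.cons_succ, dif_neg (by simp), if_neg (Fin.succ_ne_zero b).symm]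
  · rw [Fin.cons_succ]
    by_cases h : b' = b
    · subst h
      rw [Pi.single_eq_same, if_pos rfl]
    · rw [Pi.single_eq_of_ne, if_neg]
      · intro h'
        exact h (Fin.succ_injective _ h')
      · intro h'
        exact h ((g r).injective (Fin.succ_injective _ h')).symm

theorem Lg_fix (g : Sl n N) (ξ : Q g → S) (q : Q g) (j : Fin (n q.1.1 + 1)) :
    Lg g ξ q.1.1 j q.1.2.succ = if j = 0 then ξ q else 0 := by
  classical
  unfold Lg
  refine Fin.cases ?_ (fun b => ?_) j
  · rw [Fin.cons_zero, Fin.cons_succ, dif_pos q.2, if_pos rfl]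
  · rw [Fin.cons_succ, if_neg (Fin.succ_ne_zero b), Pi.single_eq_of_ne]
    intro h
    exact q.2 ⟨b, (Fin.succ_injective _ h).symm⟩

theorem emb_zero (g : Sl n N) (ξ : Q g → S) (y : Pt n S) (r : Fin k) :
    emb g ξ y r 0 = y r 0 := by
  unfold emb
  simp only [Lg_zero]
  simp

theorem emb_free (g : Sl n N) (ξ : Q g → S) (y : Pt n S) (r : Fin k) (b : Fin (n r)) :
    emb g ξ y r (g r b).succ = y r b.succ := by
  unfold emb
  simp only [Lg_free]
  simp

theorem emb_fix (g : Sl n N) (ξ : Q g → S) (y : Pt n S) (q : Q g) :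
    emb g ξ y q.1.1 q.1.2.succ = y q.1.1 0 * ξ q := by
  unfold emb
  simp only [Lg_fix]
  simp

theorem emb_rst (g : Sl n N) (x : Pt N S) (h1 : ∀ r, x r 0 = 1) :
    emb g (fun q => x q.1.1 q.1.2.succ) (rst g x) = x := by
  classical
  funext r i
  refine Fin.cases ?_ (fun a => ?_) i
  · rw [emb_zero]
    rfl
  · by_cases ha : a ∈ Set.range (g r)
    · obtain ⟨b, rfl⟩ := ha
      rw [emb_free]
      rfl
    · have h2 := emb_fix g (fun q : Q g => x q.1.1 q.1.2.succ) (rst g x) ⟨⟨r, a⟩, ha⟩
      refine h2.trans ?_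
      show x r 0 * x r a.succ = x r a.succ
      rw [h1, one_mul]

/-- At `ξ = 0` the slice is a restriction of the indices. -/
theorem slc_zero (g : Sl n N) (c : Tx N d → S) (e : Tx n d) :
    slc g (fun _ => 0) c e = c ⟨e.1, fun r t => ih g r (e.2 r t)⟩ := by
  classical
  have hL : ∀ r (j : Fin (n r + 1)) (i : Fin (N r + 1)), Lg g (fun _ => (0 : S)) r j i =
      if i = ih g r j then 1 else 0 := by
    intro r j i
    refine Fin.cases ?_ (fun a => ?_) i
    · rw [Lg_zero]
      refine Fin.cases ?_ (fun b => ?_) j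
      · rw [if_pos rfl, ih_zero, if_pos rfl]
      · rw [if_neg (Fin.succ_ne_zero b), ih_succ, if_neg (Fin.succ_ne_zero _).symm]
    · by_cases ha : a ∈ Set.range (g r)
      · obtain ⟨b, rfl⟩ := ha
        rw [Lg_free, ← ih_succ]
        by_cases h : j = b.succ
        · rw [if_pos h, if_pos (by rw [h])]
        · rw [if_neg h, if_neg fun h' => h (ih_inj g r h').symm]
      · have h2 := Lg_fix g (fun _ => (0 : S)) ⟨⟨r, a⟩, ha⟩ j
        refine h2.trans ?_
        rw [ite_self]
        refine Fin.cases ?_ (fun b' => ?_) j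
        · rw [ih_zero, if_neg (Fin.succ_ne_zero _)]
        · rw [ih_succ, if_neg]
          intro h'
          exact ha ⟨b', (Fin.succ_injective _ h').symm⟩
  unfold slc tv
  simp only [hL]
  rw [Finset.sum_eq_single fun r t => ih g r (e.2 r t)]
  · simp
  · intro m _ hm
    obtain ⟨r, hr⟩ := Function.ne_iff.1 hm
    obtain ⟨t, ht⟩ := Function.ne_iff.1 hr
    rw [Finset.prod_eq_zero (Finset.mem_univ r), mul_zero]
    rw [Finset.prod_eq_zero (Finset.mem_univ t)]
    rw [if_neg ht]
  · intro h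
    exact absurd (Finset.mem_univ _) h

end ring

/-- The index of the coefficient at `ξ = 0`. -/
def ix0 (g : Sl n N) (e : Tx n d) : Tx N d := ⟨e.1, fun r t => ih g r (e.2 r t)⟩

theorem ix0_inj (g : Sl n N) : Function.Injective (ix0 (d := d) g) := by
  rintro ⟨i, m⟩ ⟨i', m'⟩ h
  obtain ⟨h1, h2⟩ := Sigma.mk.inj_iff.1 h
  change i = i' at h1
  subst h1
  have h3 := eq_of_heq h2
  congr 1
  funext r t
  exact ih_inj g r (congrFun (congrFun h3 r) t)

/-- General coefficients have general slices. -/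
theorem exists_slc (g : Sl n N) (Δ : MvPolynomial (Tx n d) ℚ) (hΔ : Δ ≠ 0) :
    ∃ Δ' : MvPolynomial (Tx N d) ℚ, Δ' ≠ 0 ∧ ∀ (K : Type) [Field K] [CharZero K]
      (c : Tx N d → K), aeval c Δ' ≠ 0 → ∀ (K' : Type) [Field K'] [Algebra K K'] [CharZero K']
      (ξ : Q g → K'), AlgebraicIndependent K ξ →
        aeval (slc g ξ fun e => algebraMap K K' (c e)) Δ ≠ 0 := by
  refine ⟨rename (ix0 g) Δ, fun h => hΔ (rename_injective _ (ix0_inj g) (by rw [h, map_zero])),
    fun K _ _ c hc K' _ _ _ ξ hξ h0 => hc ?_⟩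
  -- the value of `Δ` in `K[ξ]`
  let p : MvPolynomial (Q g) K := aeval (slc g X fun e => C (c e)) Δ
  have hp : aeval ξ p = 0 := by
    have h1 : aeval ξ p = aeval (slc g ξ fun e => algebraMap K K' (c e)) Δ := by
      have e1 : ((aeval ξ : MvPolynomial (Q g) K →ₐ[K] K').toRingHom.toRatAlgHom.comp
          (aeval (slc g X fun e => (C (c e) : MvPolynomial (Q g) K)) :
            MvPolynomial (Tx n d) ℚ →ₐ[ℚ] MvPolynomial (Q g) K)) =
          aeval (slc g ξ fun e => algebraMap K K' (c e)) := by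
        apply MvPolynomial.algHom_ext
        intro e
        rw [aeval_X]
        show (aeval ξ : MvPolynomial (Q g) K →ₐ[K] K').toRingHom
          (aeval (slc g X fun e => (C (c e) : MvPolynomial (Q g) K)) (X e)) = _
        rw [aeval_X, slc_map]
        congr 1
        · funext q
          exact aeval_X ξ q
        · funext e
          exact aeval_C ξ (c e)
      exact DFunLike.congr_fun e1 Δ
    rw [h1, h0]
  have hp0 : p = 0 := hξ (by rw [hp, map_zero])
  have h2 : aeval (fun _ => (0 : K)) p = aeval c (rename (ix0 g) Δ) := by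
    rw [aeval_rename]
    have e1 : ((aeval (fun _ => (0 : K)) : MvPolynomial (Q g) K →ₐ[K] K).toRingHom.toRatAlgHom.comp
        (aeval (slc g X fun e => (C (c e) : MvPolynomial (Q g) K)) :
          MvPolynomial (Tx n d) ℚ →ₐ[ℚ] MvPolynomial (Q g) K)) = aeval (c ∘ ix0 g) := by
      apply MvPolynomial.algHom_ext
      intro e
      rw [aeval_X]
      show (aeval (fun _ => (0 : K)) : MvPolynomial (Q g) K →ₐ[K] K).toRingHom
        (aeval (slc g X fun e => (C (c e) : MvPolynomial (Q g) K)) (X e)) = _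
      rw [aeval_X, slc_map]
      have h3 : (fun q : Q g => (aeval (fun _ => (0 : K)) :
          MvPolynomial (Q g) K →ₐ[K] K).toRingHom (X q)) = fun _ => 0 := by
        funext q
        exact aeval_X _ q
      have h4 : (fun e => (aeval (fun _ => (0 : K)) :
          MvPolynomial (Q g) K →ₐ[K] K).toRingHom (C (c e))) = c := by
        funext e
        exact aeval_C _ (c e)
      rw [h3, h4, slc_zero]
      rfl
    exact DFunLike.congr_fun e1 Δ
  rw [← h2, hp0, map_zero]

end Pool.Agent.Helper24.P
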