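import Mathlib
import Pool.Agent.Helper47.P.Defs
import Pool.Agent.Helper24.MP.Sl
import Pool.Agent.Helper24.P.Slc
import Pool.Agent.Helper28.M.Q12
import Pool.Agent.Helper37.M.Full

/-!
# Theorem M+: the ideal is prime, and its generic point
-/

set_option autoImplicit false

namespace Pool.Agent.Helper24.P

open MvPolynomial Pool.Agent.Helper47.M Pool.Agent.Helper47.P Pool.Agent.Helper24.MP

variable {k l : ℕ} {n N : Fin k → ℕ} {d : Fin l → Fin k → ℕ}

/-- The unknowns. -/
def uv (r : Fin k) (u : Fin l ↪ Fin (N r)) (j : Fin l) : Vr N := ⟨r, u j⟩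

theorem uv_inj (r : Fin k) (u : Fin l ↪ Fin (N r)) : Function.Injective (uv (N := N) r u) := by
  intro j j' h
  obtain ⟨-, h2⟩ := Sigma.mk.inj_iff.1 h
  exact u.injective (eq_of_heq h2)

/-- A polynomial in the parameters is not a zero divisor. -/
theorem nzd_of_jac {K : Type} [Field K] [CharZero K] (c : Tx N d → K) (r : Fin k)
    (u : Fin l ↪ Fin (N r))
    (hJ : ∀ (m : ℕ) (G : MvPolynomial (Vr N) K), Jd c r u ^ m * G ∈ idl c → G ∈ idl c)
    (p G : MvPolynomial (Vr N) K) (hp : p ≠ 0) (hv : ∀ v ∈ p.vars, ∀ j, v ≠ ⟨r, u j⟩)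
    (h : p * G ∈ idl c) : G ∈ idl c := by
  obtain ⟨m, hm⟩ := exists_pow_mem_of_points (uv (N := N) r u) (uv_inj r u)
    (fun i => Fm (fun e => C (c e)) (ch K N) i) G (by
      intro Ω _ _ y hy hF _
      have h1 : idl c ≤ RingHom.ker (aeval y : MvPolynomial (Vr N) K →ₐ[K] Ω) := by
        unfold idl
        rw [Ideal.span_le]
        rintro _ ⟨i, rfl⟩
        exact hF i
      have h2 : aeval y (p * G) = 0 := h1 h
      rw [map_mul] at h2
      refine (mul_eq_zero.1 h2).resolve_left fun h3 => hp ?_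
      obtain ⟨q, rfl⟩ := exists_rename_eq_of_vars_subset_range p
        (Subtype.val : {q : Vr N // q ∉ Set.range (uv (N := N) r u)} → Vr N)
        Subtype.val_injective (by
          intro v hv'
          refine ⟨⟨v, ?_⟩, rfl⟩
          rintro ⟨j, hj⟩
          exact hv v hv' j hj.symm)
      rw [aeval_rename] at h3
      rw [algebraicIndependent_iff.1 hy q h3, map_zero])
  exact hJ m G hm

/-- The free variables. -/
def ev (g : Sl n N) (q : Vr n) : Vr N := ⟨q.1, g q.1 q.2⟩

theorem ev_inj (g : Sl n N) : Function.Injective (ev g) := by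
  rintro ⟨r, b⟩ ⟨r', b'⟩ h
  obtain ⟨h1, h2⟩ := Sigma.mk.inj_iff.1 h
  change r = r' at h1
  subst h1
  have h3 : b = b' := (g r).injective (eq_of_heq h2)
  rw [h3]

theorem mem_ev (g : Sl n N) (q : Vr N) : q ∈ Set.range (ev g) ↔ q.2 ∈ Set.range (g q.1) := by
  constructor
  · rintro ⟨⟨r, b⟩, rfl⟩
    exact ⟨b, rfl⟩
  · obtain ⟨r, a⟩ := q
    rintro ⟨b, hb⟩
    refine ⟨⟨r, b⟩, ?_⟩
    change g r b = a at hb
    rw [← hb]
    rfl

/-- The fixed coordinates as variables. -/
def qv (g : Sl n N) (q : Q g) : {q : Vr N // q ∉ Set.range (ev g)} :=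
  ⟨q.1, fun h => q.2 ((mem_ev g q.1).1 h)⟩

section thet

variable {K : Type} [Field K] (L : Type) [Field L] (g : Sl n N)
  [Algebra (MvPolynomial {q : Vr N // q ∉ Set.range (ev g)} K) L] [Algebra K L]
  [IsScalarTower K (MvPolynomial {q : Vr N // q ∉ Set.range (ev g)} K) L]

/-- The generic values of the fixed coordinates. -/
noncomputable def xg (K : Type) [Field K] (L : Type) [Field L] (g : Sl n N)
    [Algebra (MvPolynomial {q : Vr N // q ∉ Set.range (ev g)} K) L] (q : Q g) : L :=
  algebraMap (MvPolynomial {q : Vr N // q ∉ Set.range (ev g)} K) L (X (qv g q))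

theorem thet_ch : (fun r i => thet (ev g) (ev_inj g) L (ch K N r i)) =
    emb g (fun q => C (xg K L g q)) (ch L n) := by
  funext r i
  refine Fin.cases ?_ (fun a => ?_) i
  · rw [emb_zero]
    unfold ch
    rw [Fin.cons_zero, Fin.cons_zero, map_one]
  · have h1 : ch K N r a.succ = X ⟨r, a⟩ := by
      unfold ch
      rw [Fin.cons_succ]
    rw [h1]
    by_cases ha : a ∈ Set.range (g r)
    · obtain ⟨b, rfl⟩ := ha
      rw [emb_free]
      have h2 := thet_free (K := K) (ev g) (ev_inj g) L ⟨r, b⟩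
      refine h2.trans ?_
      unfold ch
      rw [Fin.cons_succ]
    · have h2 := emb_fix g (fun q => (C (xg K L g q) : MvPolynomial (Vr n) L)) (ch L n)
        ⟨⟨r, a⟩, ha⟩
      refine Eq.trans ?_ h2.symm
      have h3 := thet_par (K := K) (ev g) (ev_inj g) L (qv g ⟨⟨r, a⟩, ha⟩)
      refine h3.trans ?_
      have h4 : ch L n r 0 = 1 := by
        unfold ch
        rw [Fin.cons_zero]
      show C (xg K L g ⟨⟨r, a⟩, ha⟩) = ch L n r 0 * C (xg K L g ⟨⟨r, a⟩, ha⟩)
      rw [h4, one_mul]

theorem thet_Fm (c : Tx N d → K) (i : Fin l) :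
    thet (ev g) (ev_inj g) L (Fm (fun e => C (c e)) (ch K N) i) =
      Fm (fun e => C (slc g (xg K L g) (fun e => algebraMap K L (c e)) e)) (ch L n) i := by
  rw [Pool.Agent.Helper28.M.Fm_map, thet_ch]
  simp only [thet_C]
  rw [← fm_slc]
  congr 1
  funext e
  exact (slc_map (C : L →+* MvPolynomial (Vr n) L) g (xg K L g)
    (fun e => algebraMap K L (c e)) e).symm

theorem xg_ind [IsFractionRing (MvPolynomial {q : Vr N // q ∉ Set.range (ev g)} K) L] :
    AlgebraicIndependent K (xg K L g) := by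
  have h1 : AlgebraicIndependent K (fun q : {q : Vr N // q ∉ Set.range (ev g)} =>
      algebraMap (MvPolynomial {q : Vr N // q ∉ Set.range (ev g)} K) L (X q)) := by
    have h2 : (aeval fun q : {q : Vr N // q ∉ Set.range (ev g)} =>
        algebraMap (MvPolynomial {q : Vr N // q ∉ Set.range (ev g)} K) L (X q)) =
        IsScalarTower.toAlgHom K (MvPolynomial {q : Vr N // q ∉ Set.range (ev g)} K) L := by
      apply MvPolynomial.algHom_ext
      intro q
      rw [aeval_X]
      rfl
    rw [AlgebraicIndependent, h2]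
    exact IsFractionRing.injective _ _
  exact h1.comp (qv g) fun q q' h => Subtype.ext (congrArg (fun z => z.1) h)

end thet

theorem card_ev (g : Sl n N) :
    Nat.card {q : Vr N // q ∉ Set.range (ev g)} + ∑ r, n r = ∑ r, N r := by
  classical
  have h1 := Fintype.card_subtype_compl (fun q : Vr N => q ∈ Set.range (ev g))
  have h4 : Fintype.card {q : Vr N // q ∈ Set.range (ev g)} ≤ Fintype.card (Vr N) :=
    Fintype.card_subtype_le _
  have h2 : Fintype.card {q : Vr N // q ∈ Set.range (ev g)} = Fintype.card (Vr n) :=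
    Fintype.card_congr (Equiv.ofInjective _ (ev_inj g)).symm
  have h3 : ∀ M : Fin k → ℕ, Fintype.card (Vr M) = ∑ r, M r := by
    intro M
    simp [Vr, Fintype.card_sigma]
  have h5 : Nat.card {q : Vr N // q ∉ Set.range (ev g)} =
      Fintype.card {q : Vr N // ¬ q ∈ Set.range (ev g)} := Nat.card_eq_fintype_card
  rw [h3] at h2 h1 h4
  omega

theorem gpt_aeval {K : Type} [Field K] (P : Ideal (MvPolynomial (Vr N) K)) [P.IsPrime]
    (G : MvPolynomial (Vr N) K) : aeval (fun v : Vr N => gpt P v.1 v.2.succ) G =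
      algebraMap (MvPolynomial (Vr N) K ⧸ P) (FractionRing (MvPolynomial (Vr N) K ⧸ P))
        (Ideal.Quotient.mk P G) := by
  have h1 : aeval (fun v : Vr N => gpt P v.1 v.2.succ) =
      (IsScalarTower.toAlgHom K (MvPolynomial (Vr N) K ⧸ P)
        (FractionRing (MvPolynomial (Vr N) K ⧸ P))).comp (Ideal.Quotient.mkₐ K P) := by
    apply MvPolynomial.algHom_ext
    rintro ⟨j, q⟩
    rw [aeval_X]
    show algebraMap (MvPolynomial (Vr N) K ⧸ P) _ (Ideal.Quotient.mk P (ch K N j q.succ)) =
      algebraMap (MvPolynomial (Vr N) K ⧸ P) _ (Ideal.Quotient.mk P (X ⟨j, q⟩))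
    congr 2
  rw [h1]
  rfl

/-- The generic point of a prime ideal `idl c` modulo which the polynomials in parameters are not
zero divisors. -/
theorem fullX_gpt {K : Type} [Field K] [CharZero K] (c : Tx N d → K) (hP : (idl c).IsPrime)
    (hJ : ∀ (r : Fin k) (u : Fin l ↪ Fin (N r)) (m : ℕ) (G : MvPolynomial (Vr N) K),
      Jd c r u ^ m * G ∈ idl c → G ∈ idl c) : FullX K c (gpt (idl c)) where
  eq i := by
    have h1 := Pool.Agent.Helper28.M.Fm_map ((algebraMap (MvPolynomial (Vr N) K ⧸ idl c)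
      (FractionRing (MvPolynomial (Vr N) K ⧸ idl c))).comp (Ideal.Quotient.mk (idl c)))
      (fun e => (C (c e) : MvPolynomial (Vr N) K)) (ch K N) i
    have h2 : ((algebraMap (MvPolynomial (Vr N) K ⧸ idl c)
        (FractionRing (MvPolynomial (Vr N) K ⧸ idl c))).comp (Ideal.Quotient.mk (idl c)))
        (Fm (fun e => C (c e)) (ch K N) i) = 0 := by
      have h0 : Fm (fun e => C (c e)) (ch K N) i ∈ idl c := Ideal.subset_span ⟨i, rfl⟩
      rw [RingHom.comp_apply, Ideal.Quotient.eq_zero_iff_mem.2 h0, map_zero]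
    rw [h2] at h1
    exact h1.symm
  one j := by
    show algebraMap (MvPolynomial (Vr N) K ⧸ idl c) _ (Ideal.Quotient.mk (idl c) (ch K N j 0)) = 1
    have h1 : ch K N j 0 = 1 := by
      unfold ch
      rw [Fin.cons_zero]
    rw [h1, map_one, map_one]
  ind r A hA hcard := by
    classical
    -- the other coordinates of the factor `r`
    let B : Finset (Fin (N r)) := Finset.univ.filter fun a => (⟨r, a⟩ : Vr N) ∉ A
    have hB : B.card = l := by
      have h1 : (Finset.univ.filter fun a : Fin (N r) => (⟨r, a⟩ : Vr N) ∈ A).card = A.card := by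
        have h2 : (Finset.univ.filter fun a : Fin (N r) => (⟨r, a⟩ : Vr N) ∈ A).map
            ⟨fun a => (⟨r, a⟩ : Vr N), fun a b h => eq_of_heq (Sigma.mk.inj_iff.1 h).2⟩ = A := by
          ext ⟨r', a⟩
          rw [Finset.mem_map]
          constructor
          · rintro ⟨a', h3, h4⟩
            rw [← h4]
            exact (Finset.mem_filter.1 h3).2
          · intro h3
            have h4 : r' = r := hA _ h3
            subst h4
            exact ⟨a, Finset.mem_filter.2 ⟨Finset.mem_univ _, h3⟩, rfl⟩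
        rw [← Finset.card_map, h2]
      have h3 := Finset.card_filter_add_card_filter_not
        (s := (Finset.univ : Finset (Fin (N r)))) (fun a => (⟨r, a⟩ : Vr N) ∈ A)
      rw [h1, Finset.card_univ, Fintype.card_fin] at h3
      have h4 : B.card = (Finset.univ.filter fun a : Fin (N r) => ¬ (⟨r, a⟩ : Vr N) ∈ A).card :=
        rfl
      omega
    let u : Fin l ↪ Fin (N r) := (B.orderEmbOfFin hB).toEmbedding
    have hu : ∀ j, (⟨r, u j⟩ : Vr N) ∉ A := by
      intro j
      have h1 : u j ∈ B := B.orderEmbOfFin_mem hB j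
      exact (Finset.mem_filter.1 h1).2
    rw [algebraicIndependent_iff]
    intro p hp
    by_contra hp0
    set q : MvPolynomial (Vr N) K := rename Subtype.val p with hq
    have hq0 : q ≠ 0 := fun h => hp0 (rename_injective _ Subtype.val_injective
      (by rw [← hq, h, map_zero]))
    have h1 : q ∈ idl c := by
      rw [← Ideal.Quotient.eq_zero_iff_mem,
        ← IsFractionRing.to_map_eq_zero_iff (K := FractionRing (MvPolynomial (Vr N) K ⧸ idl c)),
        ← gpt_aeval, hq, aeval_rename]
      exact hp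
    have h2 : (1 : MvPolynomial (Vr N) K) ∈ idl c := by
      refine nzd_of_jac c r u (hJ r u) q 1 hq0 ?_ (by rwa [mul_one])
      intro v hv j hvj
      have h3 := vars_rename (Subtype.val : {q : Vr N // q.1 ≠ r ∨ q ∈ A} → Vr N) p hv
      obtain ⟨w, _, hw⟩ := Finset.mem_image.1 h3
      have h4 := w.2
      rw [hw, hvj] at h4
      rcases h4 with h4 | h4
      · exact h4 rfl
      · exact hu j h4
    exact hP.ne_top ((Ideal.eq_top_iff_one _).2 h2)
  top := by
    rw [eq_top_iff]
    intro z _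
    have hm : ∀ F : MvPolynomial (Vr N) K,
        algebraMap (MvPolynomial (Vr N) K ⧸ idl c) (FractionRing (MvPolynomial (Vr N) K ⧸ idl c))
          (Ideal.Quotient.mk (idl c) F) ∈ Bf K (gpt (idl c)) ∅ := by
      intro F
      rw [← gpt_aeval]
      induction F using MvPolynomial.induction_on with
      | C a =>
        rw [aeval_C]
        exact (Bf K (gpt (idl c)) ∅).algebraMap_mem a
      | add p q hp hq => rw [map_add]; exact add_mem hp hq
      | mul_X p q hp =>
        rw [map_mul, aeval_X]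
        exact mul_mem hp (IntermediateField.subset_adjoin _ _
          ⟨q.1, Set.notMem_empty _, q.2.succ, rfl⟩)
    obtain ⟨F, G, -, rfl⟩ := IsFractionRing.div_surjective (A := MvPolynomial (Vr N) K ⧸ idl c) z
    obtain ⟨F, rfl⟩ := Ideal.Quotient.mk_surjective F
    obtain ⟨G, rfl⟩ := Ideal.Quotient.mk_surjective G
    exact div_mem (hm F) (hm G)

/-- The ideal is prime and dominant if the ideal of the generic slice is. -/
theorem dom_of_slice (hk : 0 < k) (hc : Tc n d) (g : Sl n N) {K : Type} [Field K] [CharZero K]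
    (c : Tx N d → K) (L : Type) [Field L]
    [Algebra (MvPolynomial {q : Vr N // q ∉ Set.range (ev g)} K) L] [Algebra K L]
    [IsScalarTower K (MvPolynomial {q : Vr N // q ∉ Set.range (ev g)} K) L]
    [IsFractionRing (MvPolynomial {q : Vr N // q ∉ Set.range (ev g)} K) L]
    (hJ : ∀ (r : Fin k) (u : Fin l ↪ Fin (N r)) (m : ℕ) (G : MvPolynomial (Vr N) K),
      Jd c r u ^ m * G ∈ idl c → G ∈ idl c)
    (hs : IsDom (idl (slc g (xg K L g) fun e => algebraMap K L (c e))) (∑ r, n r - l)
      (idl (slc g (xg K L g) fun e => algebraMap K L (c e)))) :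
    IsDom (idl c) (∑ r, N r - l) (idl c) := by
  have hle : ∀ r, l ≤ n r := fun r => by
    rcases hc.dim r with h | h <;> omega
  let r0 : Fin k := ⟨0, hk⟩
  let u0 : Fin l ↪ Fin (n r0) := Fin.castLEEmb (hle r0)
  have hI : Ideal.span (Set.range fun i =>
      thet (ev g) (ev_inj g) L (Fm (fun e => C (c e)) (ch K N) i)) =
      idl (slc g (xg K L g) fun e => algebraMap K L (c e)) := by
    unfold idl
    congr 2
    funext i
    exact thet_Fm L g c i
  have hcom := comap_slice (ev g) (ev_inj g) L (uv (N := n) r0 u0) (uv_inj r0 u0)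
    (fun i => Fm (fun e => C (c e)) (ch K N) i) (hJ r0 (u0.trans (g r0)))
  rw [hI] at hcom
  have hcom' : (idl (slc g (xg K L g) fun e => algebraMap K L (c e))).comap
      (thet (ev g) (ev_inj g) L) = idl c := hcom
  have hprime := hs.prime
  have hP : (idl c).IsPrime := by
    rw [← hcom']
    exact Ideal.comap_isPrime _ _
  refine ⟨hP, le_rfl, ?_, ?_⟩
  · intro r Φ hΦ hv
    by_contra h0
    have hlN : l ≤ N r := (hle r).trans (by
      simpa using Fintype.card_le_of_embedding (g r))
    have h2 : (1 : MvPolynomial (Vr N) K) ∈ idl c := by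
      refine nzd_of_jac c r (Fin.castLEEmb hlN) (hJ r _) Φ 1 h0 ?_ (by rwa [mul_one])
      intro v hv' j hvj
      exact hv v hv' (by rw [hvj])
    exact hP.ne_top ((Ideal.eq_top_iff_one _).2 h2)
  · have h1 := trdeg_slice (K := K) (ev g) (ev_inj g) L
      (idl (slc g (xg K L g) fun e => algebraMap K L (c e))) (∑ r, n r - l) hs.trdeg
    rw [hcom'] at h1
    rw [h1]
    congr 1
    have h2 := card_ev g
    have h3 : l ≤ ∑ r, n r := (hle r0).trans
      (Finset.single_le_sum (f := n) (fun _ _ => Nat.zero_le _) (Finset.mem_univ r0))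
    omega

/-- Both statements from the nonzerodivisors. -/
theorem exists_full_of (hk : 0 < k) (hc : Tc n d) (g : Sl n N)
    (hjac : ∀ (r : Fin k) (u : Fin l ↪ Fin (N r)), ∃ Δ : MvPolynomial (Tx N d) ℚ, Δ ≠ 0 ∧
      ∀ (K : Type) [Field K] [CharZero K] (c : Tx N d → K), aeval c Δ ≠ 0 →
        ∀ (m : ℕ) (G : MvPolynomial (Vr N) K), Jd c r u ^ m * G ∈ idl c → G ∈ idl c)
    (hprime : ∃ Δ : MvPolynomial (Tx n d) ℚ, Δ ≠ 0 ∧ ∀ (K : Type) [Field K] [CharZero K]
      (c : Tx n d → K), aeval c Δ ≠ 0 → IsDom (idl c) (∑ r, n r - l) (idl c)) :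
    ∃ Δ : MvPolynomial (Tx N d) ℚ, Δ ≠ 0 ∧ ∀ (K : Type) [Field K] [CharZero K]
      (c : Tx N d → K), aeval c Δ ≠ 0 → IsDom (idl c) (∑ r, N r - l) (idl c) ∧
        ∀ _ : (idl c).IsPrime, FullX K c (gpt (idl c)) := by
  classical
  choose Δ2 h2 H2 using hjac
  obtain ⟨Δ0, h0, H0⟩ := hprime
  obtain ⟨Δ1, h1, H1⟩ := exists_slc (N := N) g Δ0 h0
  refine ⟨Δ1 * ∏ r, ∏ u, Δ2 r u, mul_ne_zero h1 ?_, fun K _ _ c hc' => ?_⟩
  · rw [Finset.prod_ne_zero_iff]
    intro r _
    rw [Finset.prod_ne_zero_iff]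
    intro u _
    exact h2 r u
  · rw [map_mul, map_prod] at hc'
    have hJ : ∀ (r : Fin k) (u : Fin l ↪ Fin (N r)) (m : ℕ) (G : MvPolynomial (Vr N) K),
        Jd c r u ^ m * G ∈ idl c → G ∈ idl c := by
      intro r u
      refine H2 r u K c ?_
      have h3 := (Finset.prod_ne_zero_iff.1 (right_ne_zero_of_mul hc')) r (Finset.mem_univ r)
      rw [map_prod] at h3
      exact (Finset.prod_ne_zero_iff.1 h3) u (Finset.mem_univ u)
    refine ⟨?_, fun hP => fullX_gpt c hP hJ⟩
    have : CharZero (FractionRing (MvPolynomial {q : Vr N // q ∉ Set.range (ev g)} K)) :=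
      charZero_of_injective_algebraMap (algebraMap K _).injective
    refine dom_of_slice hk hc g c
      (FractionRing (MvPolynomial {q : Vr N // q ∉ Set.range (ev g)} K)) hJ ?_
    exact H0 _ _ (H1 K c (left_ne_zero_of_mul hc') _ _
      (xg_ind (FractionRing (MvPolynomial {q : Vr N // q ∉ Set.range (ev g)} K)) g))

end Pool.Agent.Helper24.P
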