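import Mathlib
import Pool.Agent.Helper24.MP.Prim
import Pool.Agent.Helper24.P.Full
import Pool.Agent.Helper28.P.Jac

/-!
# Theorem M+: primality for the types `Tc` and for `X`
-/

set_option autoImplicit false

namespace Pool.Agent.Helper24.P

open MvPolynomial Pool.Agent.Helper47.M Pool.Agent.Helper47.P Pool.Agent.Helper24.MP

variable {k l : ℕ} {n N : Fin k → ℕ} {d : Fin l → Fin k → ℕ}

/-- The generic point of a component (no numerical conditions). -/
theorem full_of_dom' {K : Type} [Field K] [CharZero K] (c : Tx N d → K)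
    (P : Ideal (MvPolynomial (Vr N) K))
    (hP : IsDom (idl c) (∑ r, N r - l) P) [P.IsPrime] :
    FullPt K c (fun r i => algebraMap (MvPolynomial (Vr N) K ⧸ P)
      (FractionRing (MvPolynomial (Vr N) K ⧸ P)) (Ideal.Quotient.mk P (ch K N r i))) := by
  let π : MvPolynomial (Vr N) K →ₐ[K] FractionRing (MvPolynomial (Vr N) K ⧸ P) :=
    (IsScalarTower.toAlgHom K (MvPolynomial (Vr N) K ⧸ P)
      (FractionRing (MvPolynomial (Vr N) K ⧸ P))).comp (Ideal.Quotient.mkₐ K P)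
  have hπ : ∀ F, π F = algebraMap (MvPolynomial (Vr N) K ⧸ P)
      (FractionRing (MvPolynomial (Vr N) K ⧸ P)) (Ideal.Quotient.mk P F) := fun F => rfl
  have hz : ∀ F, π F = 0 ↔ F ∈ P := by
    intro F
    rw [hπ, IsFractionRing.to_map_eq_zero_iff, Ideal.Quotient.eq_zero_iff_mem]
  refine Pool.Agent.Helper37.M.full_of_hom c π (fun F hF => (hz F).2 (hP.le hF)) ?_
    (fun r Φ hΦ hv => hP.elim r Φ ((hz Φ).1 hΦ) hv) ?_
  · intro z
    obtain ⟨a, b, -, rfl⟩ := IsFractionRing.div_surjective (A := MvPolynomial (Vr N) K ⧸ P) z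
    obtain ⟨F, rfl⟩ := Ideal.Quotient.mk_surjective a
    obtain ⟨G, rfl⟩ := Ideal.Quotient.mk_surjective b
    exact ⟨F, G, rfl⟩
  · rw [← hP.trdeg]
    exact trdeg_le_of_injective
      (IsScalarTower.toAlgHom K (MvPolynomial (Vr N) K ⧸ P)
        (FractionRing (MvPolynomial (Vr N) K ⧸ P)))
      (IsFractionRing.injective (MvPolynomial (Vr N) K ⧸ P)
        (FractionRing (MvPolynomial (Vr N) K ⧸ P)))

/-- The ideal contains every dominant prime (no numerical conditions). -/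
theorem dom_le' {K : Type} [Field K] [CharZero K] (c : Tx N d → K) {r : Fin k}
    (hr : N r = l + 1) (hU : Unq K c r)
    (hnz : ∀ (n : ℕ) (G : MvPolynomial (Vr N) K),
      Pool.Agent.Helper28.M.Jdet c hr ^ n * G ∈ idl c → G ∈ idl c)
    (P : Ideal (MvPolynomial (Vr N) K)) (hP : IsDom (idl c) (∑ r, N r - l) P) : P ≤ idl c := by
  intro G hG
  have := hP.prime
  have hx := full_of_dom' c P hP
  set x : Pt N (FractionRing (MvPolynomial (Vr N) K ⧸ P)) :=
    fun r i => algebraMap (MvPolynomial (Vr N) K ⧸ P)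
      (FractionRing (MvPolynomial (Vr N) K ⧸ P)) (Ideal.Quotient.mk P (ch K N r i)) with hxdef
  have hxU : UPt K c r x := ⟨hx.eq, hx.one, hx.ind r, hx.tr r hr⟩
  have hG0 : aeval (fun v : Vr N => x v.1 v.2.succ) G = 0 := by
    have h1 := gpt_aeval P G
    refine h1.trans ?_
    rw [Ideal.Quotient.eq_zero_iff_mem.2 hG, map_zero]
  obtain ⟨n, hn⟩ := exists_pow_mem_of_points (Pool.Agent.Helper28.M.vj (N := N) hr) (vj_inj hr)
    (fun i => Fm (fun e => C (c e)) (ch K N) i) G (by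
      intro Ω _ _ y hy hF _
      have h1 := hU _ Ω x (cpt y) hxU (upt_of_ind c hr y hy hF) G hG0
      have h2 : (fun v : Vr N => cpt y v.1 v.2.succ) = y := by
        funext v
        exact cpt_succ y v.1 v.2
      rwa [h2] at h1)
  exact hnz n G hn

/-- The coordinates with the numbers `1, ..., l`. -/
def uj {r : Fin k} (hr : N r = l + 1) : Fin l ↪ Fin (N r) :=
  ⟨Pool.Agent.Helper28.M.qj hr, fun j j' h => vj_inj hr (by
    show (⟨r, Pool.Agent.Helper28.M.qj hr j⟩ : Vr N) = ⟨r, Pool.Agent.Helper28.M.qj hr j'⟩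
    rw [h])⟩

/-- For general coefficients the ideal is prime and dominant (types `Tc`). -/
theorem exists_prime_of (h : Tc N d) (hR : ∃ r, N r = l + 1)
    (hdom : ∀ (K : Type) [Field K] [CharZero K] (c : Tx N d → K), AllNice K c →
      ∃ P, IsDom (idl c) (∑ r, N r - l) P)
    (hnice : ∃ Δ : MvPolynomial (Tx N d) ℚ, Δ ≠ 0 ∧ ∀ (K : Type) [Field K] [CharZero K]
      (c : Tx N d → K), aeval c Δ ≠ 0 → AllNice K c)
    (hunq : ∀ r, N r = l + 1 → ∃ Δ : MvPolynomial (Tx N d) ℚ, Δ ≠ 0 ∧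
      ∀ (K : Type) [Field K] [CharZero K] (c : Tx N d → K), aeval c Δ ≠ 0 → Unq K c r) :
    ∃ Δ : MvPolynomial (Tx N d) ℚ, Δ ≠ 0 ∧ ∀ (K : Type) [Field K] [CharZero K]
      (c : Tx N d → K), aeval c Δ ≠ 0 → IsDom (idl c) (∑ r, N r - l) (idl c) := by
  obtain ⟨r, hr⟩ := hR
  obtain ⟨Δ1, h1, H1⟩ := hnice
  obtain ⟨Δ2, h2, H2⟩ := hunq r hr
  obtain ⟨Δ3, h3, H3⟩ := Pool.Agent.Helper28.P.jac_nzd h.pos r (uj hr)
  refine ⟨Δ1 * Δ2 * Δ3, mul_ne_zero (mul_ne_zero h1 h2) h3, fun K _ _ c hc => ?_⟩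
  rw [map_mul, map_mul] at hc
  obtain ⟨P, hP⟩ := hdom K c (H1 K c (left_ne_zero_of_mul (left_ne_zero_of_mul hc)))
  have hle := dom_le' c hr (H2 K c (right_ne_zero_of_mul (left_ne_zero_of_mul hc)))
    (H3 K c (right_ne_zero_of_mul hc)) P hP
  have heq : idl c = P := le_antisymm hP.le hle
  have hP' := hP
  rw [← heq] at hP'
  exact hP'

/-- For general coefficients the ideal of `X` is prime and dominant; its generic point. -/
theorem exists_full (h : Tz N d) (hk : 0 < k) (hc : Tc n d) (_hR : ∃ r, n r = l + 1)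
    (g : Sl n N)
    (hprime : ∃ Δ : MvPolynomial (Tx n d) ℚ, Δ ≠ 0 ∧ ∀ (K : Type) [Field K] [CharZero K]
      (c : Tx n d → K), aeval c Δ ≠ 0 → IsDom (idl c) (∑ r, n r - l) (idl c)) :
    ∃ Δ : MvPolynomial (Tx N d) ℚ, Δ ≠ 0 ∧ ∀ (K : Type) [Field K] [CharZero K]
      (c : Tx N d → K), aeval c Δ ≠ 0 → IsDom (idl c) (∑ r, N r - l) (idl c) ∧
        ∀ _ : (idl c).IsPrime, FullX K c (gpt (idl c)) :=
  exists_full_of hk hc g (fun r u => Pool.Agent.Helper28.P.jac_nzd h.pos r u) hprime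

end Pool.Agent.Helper24.P
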